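import Pool.Agent.K4H73.Secure.Kernel

/-!
# The cubic residue graph on 127 vertices: kernel checks
-/

set_option autoImplicit false

namespace Pool.Agent.K4H73.Secure

theorem check1 : testAll 1 126 1 = true := by decide +kernel

theorem check3 : testAll 3 126 1 = true := by decide +kernel

theorem check9 : testAll 9 126 1 = true := by decide +kernel

/-- no two of `x`, `y` together with `0, 1` span a complete graph -/
theorem checkK4 : ∀ x < 127, ∀ y < 127, (nb 0 &&& nb 1).testBit x = true →
    (nb 0 &&& nb 1 &&& nb x).testBit y = false := by decide +kernel

theorem nb_testBit : ∀ x < 127, ∀ y < 127,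
    (nb x).testBit y = D.testBit ((y + 127 - x) % 127) := by decide +kernel

theorem D_one : D.testBit 3 = false ∧ D.testBit 9 = false ∧ D.testBit 0 = false := by
  decide +kernel

end Pool.Agent.K4H73.Secure
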