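import Pool.Agent.K4H73.Secure.Cubes

/-!
# A graph with `α ≤ 3` and `γ_s ≥ 5`
-/

set_option autoImplicit false

namespace Pool.Agent.K4H73.Secure

open Finset SimpleGraph

/-- `x` and `y` are adjacent iff `y - x` is nonzero and not a cube modulo 127 -/
def cubeGraph : SimpleGraph (ZMod 127) where
  Adj x y := x ≠ y ∧ ¬ cube (y - x)
  symm := ⟨fun x y h => ⟨h.1.symm, fun h' => h.2 ((cube_sub_comm y x).2 h')⟩⟩
  loopless := ⟨fun x h => h.1 rfl⟩

theorem no_four {a b c d : ZMod 127} (hab : a ≠ b) (hac : a ≠ c) (had : a ≠ d) (hbc : b ≠ c)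
    (hbd : b ≠ d) (hcd : c ≠ d) (h1 : ¬ cubeGraph.Adj a b) (h2 : ¬ cubeGraph.Adj a c)
    (h3 : ¬ cubeGraph.Adj a d) (h4 : ¬ cubeGraph.Adj b c) (h5 : ¬ cubeGraph.Adj b d)
    (h6 : ¬ cubeGraph.Adj c d) : False := by
  have key : ∀ x y : ZMod 127, x ≠ y → ¬ cubeGraph.Adj x y → cube (y - x) := by
    intro x y hne h
    by_contra hcon
    exact h ⟨hne, hcon⟩
  exact no_K4 (key a b hab h1) (key a c hac h2) (key a d had h3) (key b c hbc h4)
    (key b d hbd h5) (key c d hcd h6)

theorem four_of_card {α : Type*} [DecidableEq α] {S : Finset α} (h : S.card = 4) :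
    ∃ a b c d, S = {a, b, c, d} ∧ a ≠ b ∧ a ≠ c ∧ a ≠ d ∧ b ≠ c ∧ b ≠ d ∧ c ≠ d := by
  obtain ⟨a, ha⟩ := card_pos.1 (by omega : 0 < S.card)
  have h3 : (S.erase a).card = 3 := by rw [card_erase_of_mem ha, h]
  obtain ⟨b, c, d, hbc, hbd, hcd, hS⟩ := card_eq_three.1 h3
  have hb : b ∈ S.erase a := by rw [hS]; simp
  have hc : c ∈ S.erase a := by rw [hS]; simp
  have hd : d ∈ S.erase a := by rw [hS]; simp
  refine ⟨a, b, c, d, ?_, (ne_of_mem_erase hb).symm, (ne_of_mem_erase hc).symm,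
    (ne_of_mem_erase hd).symm, hbc, hbd, hcd⟩
  rw [← hS, insert_erase ha]

theorem indepNum_cubeGraph : cubeGraph.indepNum ≤ 3 := by
  classical
  by_contra hcon
  push Not at hcon
  obtain ⟨I, hI⟩ := cubeGraph.exists_isNIndepSet_indepNum
  obtain ⟨J, hJI, hJ⟩ := exists_subset_card_eq (show 4 ≤ I.card by rw [hI.card_eq]; exact hcon)
  obtain ⟨a, b, c, d, hS, hab, hac, had, hbc, hbd, hcd⟩ := four_of_card hJ
  subst hS
  have ha : a ∈ I := hJI (by simp)
  have hb : b ∈ I := hJI (by simp)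
  have hc : c ∈ I := hJI (by simp)
  have hd : d ∈ I := hJI (by simp)
  exact no_four hab hac had hbc hbd hcd (hI.isIndepSet ha hb hab) (hI.isIndepSet ha hc hac)
    (hI.isIndepSet ha hd had) (hI.isIndepSet hb hc hbc) (hI.isIndepSet hb hd hbd)
    (hI.isIndepSet hc hd hcd)

theorem cubeGraph_free {t : ℕ} (ht : 7 ≤ t) : ¬ (pathGraph t) ⊴ cubeGraph := by
  rintro ⟨f⟩
  have hf : ∀ i j : Fin t, ¬ (pathGraph t).Adj i j → ¬ cubeGraph.Adj (f i) (f j) := fun i j h h' =>
    h (f.map_adj_iff.1 h')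
  have hn : ∀ i j : ℕ, ∀ hi : i < t, ∀ hj : j < t, i + 1 < j →
      ¬ cubeGraph.Adj (f ⟨i, hi⟩) (f ⟨j, hj⟩) := by
    intro i j hi hj hij
    apply hf
    rw [pathGraph_adj]
    rintro (h | h)
    · simp only at h; omega
    · simp only at h; omega
  have hinj : ∀ i j : ℕ, ∀ hi : i < t, ∀ hj : j < t, i ≠ j → f ⟨i, hi⟩ ≠ f ⟨j, hj⟩ := by
    intro i j hi hj hij h
    have := f.injective h
    rw [Fin.mk.injEq] at this
    exact hij this
  exact no_four (a := f ⟨0, by omega⟩) (b := f ⟨2, by omega⟩) (c := f ⟨4, by omega⟩)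
    (d := f ⟨6, by omega⟩) (hinj _ _ _ _ (by norm_num)) (hinj _ _ _ _ (by norm_num))
    (hinj _ _ _ _ (by norm_num)) (hinj _ _ _ _ (by norm_num)) (hinj _ _ _ _ (by norm_num))
    (hinj _ _ _ _ (by norm_num)) (hn _ _ _ _ (by norm_num)) (hn _ _ _ _ (by norm_num))
    (hn _ _ _ _ (by norm_num)) (hn _ _ _ _ (by norm_num)) (hn _ _ _ _ (by norm_num))
    (hn _ _ _ _ (by norm_num))

theorem not_dom_of_CN {a b c d : ZMod 127} (h : CN a b c d) {S : Set (ZMod 127)}
    (hS : ∀ x ∈ S, x = a ∨ x = b ∨ x = c ∨ x = d) : ¬ IsDominating cubeGraph S := by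
  obtain ⟨t, h1, h2, h3, h4⟩ := h
  intro hdom
  have hcube : ∀ x ∈ S, cube (x - t) := by
    intro x hx
    rw [cube_sub_comm]
    rcases hS x hx with rfl | rfl | rfl | rfl
    · exact h1
    · exact h2
    · exact h3
    · exact h4
  have htS : t ∉ S := by
    intro ht
    have := hcube t ht
    rw [sub_self] at this
    exact not_cube_zero this
  obtain ⟨u, hu, ha⟩ := hdom t htS
  exact ha.2 (hcube u hu)

theorem not_secure {S : Finset (ZMod 127)} (hS : S.card ≤ 4) :
    ¬ IsSecureDominating cubeGraph (S : Set (ZMod 127)) := by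
  classical
  intro hsec
  obtain ⟨S', hSS', hS'⟩ := exists_superset_card_eq hS (by
    rw [ZMod.card]; norm_num : 4 ≤ Fintype.card (ZMod 127))
  have hsec' := hsec.mono (S' := (S' : Set (ZMod 127))) (by exact_mod_cast hSS')
  obtain ⟨a, b, c, d, rfl, hab, hac, had, hbc, hbd, hcd⟩ := four_of_card hS'
  rcases Bad_all hab hac had hbc hbd hcd with h | ⟨v, hva, hvb, hvc, hvd, h1, h2, h3, h4⟩
  · refine not_dom_of_CN h ?_ hsec'.1
    intro x hx
    simpa using hx
  · obtain ⟨u, hu, hadj, hdom⟩ := hsec'.2 v (by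
      simp [hva, hvb, hvc, hvd])
    have hnc : ¬ cube (v - u) := fun h => hadj.2 ((cube_sub_comm v u).1 h)
    have hu' : u = a ∨ u = b ∨ u = c ∨ u = d := by simpa using hu
    rcases hu' with rfl | rfl | rfl | rfl
    · refine not_dom_of_CN (h1.resolve_left hnc) ?_ hdom
      rintro x (⟨hx, hxu⟩ | hx)
      · have hx' : x = u ∨ x = b ∨ x = c ∨ x = d := by simpa using hx
        rcases hx' with e | e | e | e
        · exact absurd e hxu
        · exact Or.inl e
        · exact Or.inr (Or.inl e)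
        · exact Or.inr (Or.inr (Or.inl e))
      · exact Or.inr (Or.inr (Or.inr hx))
    · refine not_dom_of_CN (h2.resolve_left hnc) ?_ hdom
      rintro x (⟨hx, hxu⟩ | hx)
      · have hx' : x = a ∨ x = u ∨ x = c ∨ x = d := by simpa using hx
        rcases hx' with e | e | e | e
        · exact Or.inl e
        · exact absurd e hxu
        · exact Or.inr (Or.inl e)
        · exact Or.inr (Or.inr (Or.inl e))
      · exact Or.inr (Or.inr (Or.inr hx))
    · refine not_dom_of_CN (h3.resolve_left hnc) ?_ hdom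
      rintro x (⟨hx, hxu⟩ | hx)
      · have hx' : x = a ∨ x = b ∨ x = u ∨ x = d := by simpa using hx
        rcases hx' with e | e | e | e
        · exact Or.inl e
        · exact Or.inr (Or.inl e)
        · exact absurd e hxu
        · exact Or.inr (Or.inr (Or.inl e))
      · exact Or.inr (Or.inr (Or.inr hx))
    · refine not_dom_of_CN (h4.resolve_left hnc) ?_ hdom
      rintro x (⟨hx, hxu⟩ | hx)
      · have hx' : x = a ∨ x = b ∨ x = c ∨ x = u := by simpa using hx
        rcases hx' with e | e | e | e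
        · exact Or.inl e
        · exact Or.inr (Or.inl e)
        · exact Or.inr (Or.inr (Or.inl e))
        · exact absurd e hxu
      · exact Or.inr (Or.inr (Or.inr hx))

theorem five_le : 5 ≤ secureDominationNumber cubeGraph := by
  by_contra hcon
  push Not at hcon
  have hne : {n | ∃ S : Finset (ZMod 127), S.card = n ∧
      IsSecureDominating cubeGraph (S : Set (ZMod 127))}.Nonempty := by
    refine ⟨_, univ, rfl, ?_, ?_⟩
    · intro v hv; simp at hv
    · intro v hv; simp at hv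
  obtain ⟨S, hS, hsec⟩ := Nat.sInf_mem hne
  refine not_secure (S := S) ?_ hsec
  rw [hS]
  change secureDominationNumber cubeGraph ≤ 4
  omega

end Pool.Agent.K4H73.Secure
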