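import Mathlib

/-!
# Secure domination: definitions and the reduction to private neighbours
-/

set_option autoImplicit false

namespace Pool.Agent.K4H73.Secure

open Finset SimpleGraph

/-- every vertex outside `D` has a neighbour in `D` -/
def IsDominating {V : Type*} (G : SimpleGraph V) (D : Set V) : Prop :=
  ∀ v, v ∉ D → ∃ u ∈ D, G.Adj v u

/-- `S` is dominating and each `v ∉ S` has a neighbour `u ∈ S` such that `(S \ {u}) ∪ {v}` is
dominating -/
def IsSecureDominating {V : Type*} (G : SimpleGraph V) (S : Set V) : Prop :=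
  IsDominating G S ∧ ∀ v, v ∉ S → ∃ u ∈ S, G.Adj v u ∧ IsDominating G ((S \ {u}) ∪ {v})

/-- the least size of a secure dominating set -/
noncomputable def secureDominationNumber {V : Type*} (G : SimpleGraph V) : ℕ :=
  sInf {n | ∃ S : Finset V, S.card = n ∧ IsSecureDominating G (S : Set V)}

variable {V : Type*} {G : SimpleGraph V}

theorem IsDominating.mono {D D' : Set V} (h : IsDominating G D) (hD : D ⊆ D') :
    IsDominating G D' := by
  intro v hv
  obtain ⟨u, hu, ha⟩ := h v (fun h => hv (hD h))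
  exact ⟨u, hD hu, ha⟩

theorem IsSecureDominating.mono {S S' : Set V} (h : IsSecureDominating G S) (hS : S ⊆ S') :
    IsSecureDominating G S' := by
  refine ⟨h.1.mono hS, fun v hv => ?_⟩
  obtain ⟨u, hu, ha, hd⟩ := h.2 v (fun h => hv (hS h))
  refine ⟨u, hS hu, ha, hd.mono ?_⟩
  rintro x (⟨hx, hxu⟩ | hx)
  · exact Or.inl ⟨hS hx, hxu⟩
  · exact Or.inr hx

theorem secureDominationNumber_le (S : Finset V) (h : IsSecureDominating G (S : Set V)) :
    secureDominationNumber G ≤ S.card := Nat.sInf_le ⟨S, rfl, h⟩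

/-- an induced path on six vertices, given by its vertices -/
theorem no_P6 (h : ¬ (pathGraph 6) ⊴ G) {a b c d e f : V} (hab : G.Adj a b) (hbc : G.Adj b c)
    (hcd : G.Adj c d) (hde : G.Adj d e) (hef : G.Adj e f) (hac : ¬ G.Adj a c) (had : ¬ G.Adj a d)
    (hae : ¬ G.Adj a e) (haf : ¬ G.Adj a f) (hbd : ¬ G.Adj b d) (hbe : ¬ G.Adj b e)
    (hbf : ¬ G.Adj b f) (hce : ¬ G.Adj c e) (hcf : ¬ G.Adj c f) (hdf : ¬ G.Adj d f) : False := by
  apply h
  let p : Fin 6 → V := ![a, b, c, d, e, f]
  have hac' : ¬ G.Adj c a := fun h => hac h.symm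
  have had' : ¬ G.Adj d a := fun h => had h.symm
  have hae' : ¬ G.Adj e a := fun h => hae h.symm
  have haf' : ¬ G.Adj f a := fun h => haf h.symm
  have hbd' : ¬ G.Adj d b := fun h => hbd h.symm
  have hbe' : ¬ G.Adj e b := fun h => hbe h.symm
  have hbf' : ¬ G.Adj f b := fun h => hbf h.symm
  have hce' : ¬ G.Adj e c := fun h => hce h.symm
  have hcf' : ¬ G.Adj f c := fun h => hcf h.symm
  have hdf' : ¬ G.Adj f d := fun h => hdf h.symm
  have hadj : ∀ i j, G.Adj (p i) (p j) ↔ (pathGraph 6).Adj i j := by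
    intro i j
    rw [pathGraph_adj]
    fin_cases i <;> fin_cases j <;>
      simp [p, hab, hbc, hcd, hde, hef, hac, had, hae, haf, hbd, hbe, hbf, hce, hcf, hdf,
        hab.symm, hbc.symm, hcd.symm, hde.symm, hef.symm, hac', had', hae', haf', hbd', hbe', hbf', hce', hcf', hdf']
  have hinj : Function.Injective p := by
    intro i j hij
    by_contra hne
    have h1 : ∀ k, (pathGraph 6).Adj i k ↔ (pathGraph 6).Adj j k := by
      intro k
      rw [← hadj, ← hadj, hij]
    simp only [pathGraph_adj] at h1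
    revert h1 hne
    clear hij
    revert i j
    decide
  exact ⟨⟨⟨p, hinj⟩, hadj _ _⟩⟩

end Pool.Agent.K4H73.Secure
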