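import Pool.Agent.K4H73.Secure.Check
import Pool.Agent.K4H73.Secure.Defs

/-!
# The complement of the cubic residue graph on 127 vertices
-/

set_option autoImplicit false

namespace Pool.Agent.K4H73.Secure

open Finset SimpleGraph

/-- `z` is a nonzero cube modulo 127 -/
def cube (z : ZMod 127) : Prop := D.testBit z.val = true

instance : DecidablePred cube := fun z => inferInstanceAs (Decidable (_ = true))

theorem cube_neg : ∀ z : ZMod 127, cube (-z) ↔ cube z := by decide +kernel

theorem cube_mul27 : ∀ z : ZMod 127, cube (27 * z) ↔ cube z := by decide +kernel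

theorem not_cube_zero : ¬ cube 0 := by decide +kernel

theorem pow27 : (27 : ZMod 127) ^ 42 = 1 := by decide +kernel

theorem orbit : ∀ z : ZMod 127, z ≠ 0 → ∃ k : Fin 42,
    (27 : ZMod 127) ^ (k : ℕ) * z = 1 ∨ (27 : ZMod 127) ^ (k : ℕ) * z = 3 ∨
      (27 : ZMod 127) ^ (k : ℕ) * z = 9 := by decide +kernel

theorem cube_pow (k : ℕ) (z : ZMod 127) : cube (27 ^ k * z) ↔ cube z := by
  induction k with
  | zero => simp
  | succ k ih => rw [pow_succ', mul_assoc, cube_mul27, ih]

theorem cube_sub_comm (x y : ZMod 127) : cube (x - y) ↔ cube (y - x) := by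
  rw [← cube_neg, neg_sub]

/-- a common neighbour of four vertices -/
def CN (w x y z : ZMod 127) : Prop :=
  ∃ t, cube (t - w) ∧ cube (t - x) ∧ cube (t - y) ∧ cube (t - z)

/-- the four vertices are not a secure dominating set of the complement -/
def Bad (a b c d : ZMod 127) : Prop :=
  CN a b c d ∨ ∃ v, v ≠ a ∧ v ≠ b ∧ v ≠ c ∧ v ≠ d ∧ (cube (v - a) ∨ CN b c d v) ∧
    (cube (v - b) ∨ CN a c d v) ∧ (cube (v - c) ∨ CN a b d v) ∧ (cube (v - d) ∨ CN a b c v)

theorem CN_swap34 {a b c d : ZMod 127} (h : CN a b c d) : CN a b d c := by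
  obtain ⟨t, h1, h2, h3, h4⟩ := h
  exact ⟨t, h1, h2, h4, h3⟩

theorem CN_swap23 {a b c d : ZMod 127} (h : CN a b c d) : CN a c b d := by
  obtain ⟨t, h1, h2, h3, h4⟩ := h
  exact ⟨t, h1, h3, h2, h4⟩

theorem Bad_swap {a b c d : ZMod 127} (h : Bad a b c d) : Bad a b d c := by
  rcases h with h | ⟨v, h1, h2, h3, h4, h5, h6, h7, h8⟩
  · exact Or.inl (CN_swap34 h)
  · exact Or.inr ⟨v, h1, h2, h4, h3, h5.imp_right CN_swap23, h6.imp_right CN_swap23, h8, h7⟩

section affine

variable {g g' h : ZMod 127} (hg : g' * g = 1) (hc : ∀ z, cube (g * z) ↔ cube z)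

include hg hc

theorem CN_affine {a b c d : ZMod 127} (H : CN (g * a + h) (g * b + h) (g * c + h) (g * d + h)) :
    CN a b c d := by
  have hg2 : g * g' = 1 := by rw [mul_comm]; exact hg
  obtain ⟨t, h1, h2, h3, h4⟩ := H
  have key : ∀ x, cube (t - (g * x + h)) → cube (g' * (t - h) - x) := by
    intro x hx
    rw [← hc]
    have : g * (g' * (t - h) - x) = t - (g * x + h) := by
      rw [mul_sub, ← mul_assoc, hg2]; ring
    rwa [this]
  exact ⟨g' * (t - h), key a h1, key b h2, key c h3, key d h4⟩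

theorem Bad_affine {a b c d : ZMod 127} (H : Bad (g * a + h) (g * b + h) (g * c + h) (g * d + h)) :
    Bad a b c d := by
  have hg2 : g * g' = 1 := by rw [mul_comm]; exact hg
  rcases H with H | ⟨v, h1, h2, h3, h4, h5, h6, h7, h8⟩
  · exact Or.inl (CN_affine hg hc H)
  · right
    obtain ⟨w, rfl⟩ : ∃ w, v = g * w + h := ⟨g' * (v - h), by rw [← mul_assoc, hg2]; ring⟩
    have key : ∀ x, cube (g * w + h - (g * x + h)) → cube (w - x) := by
      intro x hx
      rw [← hc]
      have : g * (w - x) = g * w + h - (g * x + h) := by ring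
      rwa [this]
    have hne : ∀ x, g * w + h ≠ g * x + h → w ≠ x := by
      rintro x hx rfl
      exact hx rfl
    exact ⟨w, hne _ h1, hne _ h2, hne _ h3, hne _ h4, h5.imp (key _) (CN_affine hg hc),
      h6.imp (key _) (CN_affine hg hc), h7.imp (key _) (CN_affine hg hc),
      h8.imp (key _) (CN_affine hg hc)⟩

end affine

/-! ### Reading the computation -/

theorem nb_lt (x : ℕ) : nb x < 2 ^ 127 := Nat.mod_lt _ (by positivity)

theorem testBit_nb {x y : ℕ} (hx : x < 127) (hy : y < 127) :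
    (nb x).testBit y = true ↔ cube ((y : ZMod 127) - (x : ZMod 127)) := by
  rw [nb_testBit x hx y hy, cube]
  have : ((y : ZMod 127) - (x : ZMod 127)) = (((y + 127 - x) % 127 : ℕ) : ZMod 127) := by
    rw [ZMod.natCast_mod, Nat.cast_sub (by omega), Nat.cast_add]
    have : ((127 : ℕ) : ZMod 127) = 0 := by decide +kernel
    rw [this, add_zero]
  rw [this, ZMod.val_natCast, Nat.mod_mod]

theorem lt_of_testBit_nb {x y : ℕ} (h : (nb x).testBit y = true) : y < 127 := by
  by_contra hy
  push Not at hy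
  rw [Nat.testBit_lt_two_pow ((nb_lt x).trans_le (Nat.pow_le_pow_right (by norm_num) hy))] at h
  exact Bool.noConfusion h

theorem exists_bit {m : ℕ} (h : (m != 0) = true) : ∃ i, m.testBit i = true :=
  Nat.exists_testBit_of_ne_zero (by simpa using h)

theorem CN_of_land {a b c d : ℕ} (ha : a < 127) (hb : b < 127) (hc : c < 127) (hd : d < 127)
    (h : (nb a &&& nb b &&& nb c &&& nb d != 0) = true) :
    CN (a : ZMod 127) (b : ZMod 127) (c : ZMod 127) (d : ZMod 127) := by
  obtain ⟨t, ht⟩ := exists_bit h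
  simp only [Nat.testBit_land, Bool.and_eq_true] at ht
  obtain ⟨⟨⟨h1, h2⟩, h3⟩, h4⟩ := ht
  have htl := lt_of_testBit_nb h1
  exact ⟨t, (testBit_nb ha htl).1 h1, (testBit_nb hb htl).1 h2, (testBit_nb hc htl).1 h3,
    (testBit_nb hd htl).1 h4⟩

theorem or_of_land {a b c u v : ℕ} (ha : a < 127) (hb : b < 127) (hc : c < 127)
    (hv : v < 127) (h : (nb v &&& ((nb a &&& nb b &&& nb c) ||| (1 <<< u)) != 0) = true) :
    cube ((v : ZMod 127) - (u : ZMod 127)) ∨
      CN (a : ZMod 127) (b : ZMod 127) (c : ZMod 127) (v : ZMod 127) := by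
  obtain ⟨t, ht⟩ := exists_bit h
  simp only [Nat.testBit_land, Nat.testBit_lor, Bool.and_eq_true, Bool.or_eq_true] at ht
  obtain ⟨h0, h1 | h1⟩ := ht
  · obtain ⟨⟨h1, h2⟩, h3⟩ := h1
    have htl := lt_of_testBit_nb h1
    exact Or.inr ⟨t, (testBit_nb ha htl).1 h1, (testBit_nb hb htl).1 h2,
      (testBit_nb hc htl).1 h3, (testBit_nb hv htl).1 h0⟩
  · have htl := lt_of_testBit_nb h0
    rw [Nat.shiftLeft_eq, one_mul, Nat.testBit_two_pow] at h1
    have h1 : u = t := by simpa using h1
    subst h1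
    left
    rw [cube_sub_comm]
    exact (testBit_nb hv htl).1 h0

theorem natCast_ne {a b : ℕ} (ha : a < 127) (hb : b < 127) (h : a ≠ b) :
    (a : ZMod 127) ≠ (b : ZMod 127) := by
  intro e
  apply h
  have := congrArg ZMod.val e
  rwa [ZMod.val_natCast, ZMod.val_natCast, Nat.mod_eq_of_lt ha, Nat.mod_eq_of_lt hb] at this

theorem Bad_of_scan {a b c : ℕ} (ha : a < 127) (hb : b < 127) (hc : c < 127) :
    ∀ n v : ℕ, v + n ≤ 127 →
      scan a b c ((nb a &&& nb b &&& nb c) ||| (1 <<< 0)) ((nb 0 &&& nb b &&& nb c) ||| (1 <<< a))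
        ((nb 0 &&& nb a &&& nb c) ||| (1 <<< b)) ((nb 0 &&& nb a &&& nb b) ||| (1 <<< c)) n v
          = true → Bad ((0 : ℕ) : ZMod 127) (a : ZMod 127) (b : ZMod 127) (c : ZMod 127) := by
  have h0 : 0 < 127 := by norm_num
  intro n
  induction n with
  | zero => intro v _ h; exact Bool.noConfusion h
  | succ n ih =>
    intro v hv h
    rw [scan] at h
    simp only [Bool.or_eq_true, Bool.and_eq_true] at h
    rcases h with h | h
    · have hvl : v < 127 := by omega
      obtain ⟨⟨⟨⟨⟨⟨⟨e0, ea⟩, eb⟩, ec⟩, f0⟩, fa⟩, fb⟩, fc⟩ := h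
      refine Or.inr ⟨v, natCast_ne hvl h0 (by simpa using e0), natCast_ne hvl ha (by simpa using ea),
        natCast_ne hvl hb (by simpa using eb), natCast_ne hvl hc (by simpa using ec),
        or_of_land ha hb hc hvl f0, or_of_land h0 hb hc hvl fa, or_of_land h0 ha hc hvl fb,
        or_of_land h0 ha hb hvl fc⟩
    · exact ih (v + 1) (by omega) h

theorem Bad_of_test {a b c : ℕ} (ha : a < 127) (hb : b < 127) (hc : c < 127)
    (h : test a b c = true) :
    Bad ((0 : ℕ) : ZMod 127) (a : ZMod 127) (b : ZMod 127) (c : ZMod 127) := by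
  rw [test] at h
  simp only [Bool.or_eq_true] at h
  rcases h with h | h
  · exact Or.inl (CN_of_land (by norm_num) ha hb hc h)
  · exact Bad_of_scan ha hb hc 127 0 (by norm_num) h

theorem test_of_testRow {a b : ℕ} : ∀ n c₀ : ℕ, testRow a b n c₀ = true →
    ∀ c, c₀ ≤ c → c < c₀ + n → c ≠ a → test a b c = true := by
  intro n
  induction n with
  | zero => intro c₀ _ c h1 h2; omega
  | succ n ih =>
    intro c₀ h c h1 h2 h3
    rw [testRow, Bool.and_eq_true, Bool.or_eq_true] at h
    by_cases hc : c = c₀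
    · subst hc
      rcases h.1 with h | h
      · exact absurd (by simpa using h) h3
      · exact h
    · exact ih (c₀ + 1) h.2 c (by omega) (by omega) h3

theorem test_of_testAll {a : ℕ} : ∀ n b₀ : ℕ, testAll a n b₀ = true → b₀ + n ≤ 127 →
    ∀ b, b₀ ≤ b → b < b₀ + n → b ≠ a → ∀ c, b < c → c < 127 → c ≠ a → test a b c = true := by
  intro n
  induction n with
  | zero => intro b₀ _ _ b h1 h2; omega
  | succ n ih =>
    intro b₀ h hn b h1 h2 h3 c h4 h5 h6
    rw [testAll, Bool.and_eq_true, Bool.or_eq_true] at h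
    by_cases hb : b = b₀
    · subst hb
      rcases h.1 with h | h
      · exact absurd (by simpa using h) h3
      · exact test_of_testRow _ _ h c (by omega) (by omega) h6
    · exact ih (b₀ + 1) h.2 (by omega) b (by omega) (by omega) h3 c h4 h5 h6

theorem Bad_base {a : ℕ} (ha : a < 127) (hA : testAll a 126 1 = true) {x y : ZMod 127}
    (hx0 : x ≠ 0) (hy0 : y ≠ 0) (hxa : x ≠ (a : ZMod 127)) (hya : y ≠ (a : ZMod 127))
    (hxy : x ≠ y) : Bad 0 (a : ZMod 127) x y := by
  have key : ∀ x y : ZMod 127, x ≠ 0 → y ≠ 0 → x ≠ (a : ZMod 127) → y ≠ (a : ZMod 127) →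
      x.val < y.val → Bad 0 (a : ZMod 127) x y := by
    intro x y hx0 hy0 hxa hya hlt
    have hxv : ((x.val : ℕ) : ZMod 127) = x := ZMod.natCast_zmod_val x
    have hyv : ((y.val : ℕ) : ZMod 127) = y := ZMod.natCast_zmod_val y
    have hx1 : x.val ≠ 0 := fun h => hx0 (by rw [← hxv, h, Nat.cast_zero])
    have hx2 : x.val ≠ a := fun h => hxa (by rw [← hxv, h])
    have hy2 : y.val ≠ a := fun h => hya (by rw [← hyv, h])
    have hxl := ZMod.val_lt x
    have hyl := ZMod.val_lt y
    have h := Bad_of_test ha hxl hyl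
      (test_of_testAll 126 1 hA (by norm_num) x.val (by omega) (by omega) hx2 y.val hlt hyl hy2)
    rwa [hxv, hyv, Nat.cast_zero] at h
  have hne : x.val ≠ y.val := fun h => hxy (ZMod.val_injective _ h)
  rcases lt_or_gt_of_ne hne with h | h
  · exact key x y hx0 hy0 hxa hya h
  · exact Bad_swap (key y x hy0 hx0 hya hxa h)

theorem exists_scale {z : ZMod 127} (hz : z ≠ 0) : ∃ g g' : ZMod 127, g' * g = 1 ∧
    (∀ x, cube (g * x) ↔ cube x) ∧ (g * z = 1 ∨ g * z = 3 ∨ g * z = 9) := by
  obtain ⟨k, hk⟩ := orbit z hz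
  refine ⟨27 ^ (k : ℕ), 27 ^ (42 - (k : ℕ)), ?_, cube_pow k, hk⟩
  rw [← pow_add, Nat.sub_add_cancel k.2.le, pow27]

theorem Bad_all {a b c d : ZMod 127} (hab : a ≠ b) (hac : a ≠ c) (had : a ≠ d) (hbc : b ≠ c)
    (hbd : b ≠ d) (hcd : c ≠ d) : Bad a b c d := by
  obtain ⟨g, g', hg, hc, hr⟩ := exists_scale (sub_ne_zero.2 hab.symm)
  have hinj : ∀ x y : ZMod 127, g * x = g * y → x = y := by
    intro x y h
    have := congrArg (g' * ·) h
    simpa only [← mul_assoc, hg, one_mul] using this
  have e1 : g * a + -(g * a) = 0 := by ring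
  have e2 : g * b + -(g * a) = g * (b - a) := by ring
  have e3 : g * c + -(g * a) = g * (c - a) := by ring
  have e4 : g * d + -(g * a) = g * (d - a) := by ring
  apply Bad_affine (h := -(g * a)) hg hc
  rw [e1, e2, e3, e4]
  have hx0 : g * (c - a) ≠ 0 := by
    intro h
    rw [← mul_zero g] at h
    exact hac (sub_eq_zero.1 (hinj _ _ h)).symm
  have hy0 : g * (d - a) ≠ 0 := by
    intro h
    rw [← mul_zero g] at h
    exact had (sub_eq_zero.1 (hinj _ _ h)).symm
  have hxa : g * (c - a) ≠ g * (b - a) := by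
    intro h
    exact hbc (sub_left_injective (hinj _ _ h)).symm
  have hya : g * (d - a) ≠ g * (b - a) := by
    intro h
    exact hbd (sub_left_injective (hinj _ _ h)).symm
  have hxy : g * (c - a) ≠ g * (d - a) := by
    intro h
    exact hcd (sub_left_injective (hinj _ _ h))
  rcases hr with hr | hr | hr
  · rw [hr] at hxa hya ⊢
    have := Bad_base (a := 1) (by norm_num) check1 hx0 hy0 (by simpa using hxa)
      (by simpa using hya) hxy
    simpa using this
  · rw [hr] at hxa hya ⊢
    have := Bad_base (a := 3) (by norm_num) check3 hx0 hy0 (by simpa using hxa)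
      (by simpa using hya) hxy
    simpa using this
  · rw [hr] at hxa hya ⊢
    have := Bad_base (a := 9) (by norm_num) check9 hx0 hy0 (by simpa using hxa)
      (by simpa using hya) hxy
    simpa using this

/-- no complete subgraph on four vertices -/
theorem no_K4 {a b c d : ZMod 127} (hab : cube (b - a)) (hac : cube (c - a)) (had : cube (d - a))
    (hbc : cube (c - b)) (hbd : cube (d - b)) (hcd : cube (d - c)) : False := by
  have hne : b - a ≠ 0 := fun h => not_cube_zero (h ▸ hab)
  obtain ⟨g, g', hg, hc, hr⟩ := exists_scale hne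
  have h1 : cube (g * (b - a)) := (hc _).2 hab
  have hr1 : g * (b - a) = 1 := by
    rcases hr with hr | hr | hr
    · exact hr
    · rw [hr] at h1
      exact absurd h1 (by decide +kernel)
    · rw [hr] at h1
      exact absurd h1 (by decide +kernel)
  set x := g * (c - a) with hx
  set y := g * (d - a) with hy
  have hx0 : cube (x - 0) := by rw [sub_zero, hx, hc]; exact hac
  have hy0 : cube (y - 0) := by rw [sub_zero, hy, hc]; exact had
  have hx1 : cube (x - 1) := by
    have : x - 1 = g * (c - b) := by rw [← hr1, hx]; ring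
    rw [this, hc]; exact hbc
  have hy1 : cube (y - 1) := by
    have : y - 1 = g * (d - b) := by rw [← hr1, hy]; ring
    rw [this, hc]; exact hbd
  have hxy : cube (y - x) := by
    have : y - x = g * (d - c) := by rw [hx, hy]; ring
    rw [this, hc]; exact hcd
  have hxv : ((x.val : ℕ) : ZMod 127) = x := ZMod.natCast_zmod_val x
  have hyv : ((y.val : ℕ) : ZMod 127) = y := ZMod.natCast_zmod_val y
  have hxl := ZMod.val_lt x
  have hyl := ZMod.val_lt y
  have b1 : (nb 0).testBit x.val = true := (testBit_nb (by norm_num) hxl).2 (by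
    rwa [hxv, Nat.cast_zero])
  have b2 : (nb 1).testBit x.val = true := (testBit_nb (by norm_num) hxl).2 (by
    rwa [hxv, Nat.cast_one])
  have b3 : (nb 0).testBit y.val = true := (testBit_nb (by norm_num) hyl).2 (by
    rwa [hyv, Nat.cast_zero])
  have b4 : (nb 1).testBit y.val = true := (testBit_nb (by norm_num) hyl).2 (by
    rwa [hyv, Nat.cast_one])
  have b5 : (nb x.val).testBit y.val = true := (testBit_nb hxl hyl).2 (by
    rwa [hxv, hyv])
  have := checkK4 x.val hxl y.val hyl (by rw [Nat.testBit_land, b1, b2]; rfl)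
  rw [Nat.testBit_land, Nat.testBit_land, b3, b4, b5] at this
  exact Bool.noConfusion this

end Pool.Agent.K4H73.Secure
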