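import Mathlib.Data.Nat.Bitwise
import Mathlib.Data.ZMod.Basic

/-!
# The cubic residue graph on 127 vertices: the computation

`D` has bit `i` set exactly when `i` is a nonzero cube modulo 127.
-/

set_option autoImplicit false

namespace Pool.Agent.K4H73.Secure

/-- bit `i` (for `i < 127`) is set iff `i` is a nonzero cube modulo 127 -/
def D : ℕ := 144390480366845522447407333004847678774

/-- the set of `y < 127` such that `y - x` is a nonzero cube modulo 127 -/
def nb (x : ℕ) : ℕ := ((D <<< x) ||| (D >>> (127 - x))) % 2 ^ 127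

/-- looks for `v ≥ v₀` which works -/
def scan (a b c wO wa wb wc : ℕ) : ℕ → ℕ → Bool
  | 0, _ => false
  | n + 1, v =>
    let m := nb v
    (v != 0 && v != a && v != b && v != c && (m &&& wO) != 0 && (m &&& wa) != 0 &&
      (m &&& wb) != 0 && (m &&& wc) != 0) || scan a b c wO wa wb wc n (v + 1)

/-- the test for `{0, a, b, c}` -/
def test (a b c : ℕ) : Bool :=
  let nO := nb 0
  let na := nb a
  let nb' := nb b
  let nc := nb c
  (nO &&& na &&& nb' &&& nc) != 0 ||
    scan a b c ((na &&& nb' &&& nc) ||| (1 <<< 0)) ((nO &&& nb' &&& nc) ||| (1 <<< a))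
      ((nO &&& na &&& nc) ||| (1 <<< b)) ((nO &&& na &&& nb') ||| (1 <<< c)) 127 0

/-- the test for all `c` with `c₀ ≤ c < c₀ + n` -/
def testRow (a b : ℕ) : ℕ → ℕ → Bool
  | 0, _ => true
  | n + 1, c => (c == a || test a b c) && testRow a b n (c + 1)

/-- the test for all `b` with `b₀ ≤ b < b₀ + n`, and all `c > b` -/
def testAll (a : ℕ) : ℕ → ℕ → Bool
  | 0, _ => true
  | n + 1, b => (b == a || testRow a b (126 - b) (b + 1)) && testAll a n (b + 1)

end Pool.Agent.K4H73.Secure
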