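import Pool.Agent.K4H73.Secure.Defs

/-!
# Secure domination in graphs without induced `P₆`

Let `I` be a maximum independent set. For `T` disjoint from `I`, the set `I ∪ T` is secure dominating
unless some vertex `w` is undefended: `w` has no neighbour in `T` and for each neighbour `u` of `w` in
`I` there is a vertex `y` whose only neighbour in `I ∪ T` is `u`, and `y` is not adjacent to `w`.
Starting from `T = ∅` one adds vertices to `T`, in such a way that the neighbourhoods in `I` of the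
undefended vertices avoid a subset of `I` of size at least `2 |T|`.
-/

set_option autoImplicit false

namespace Pool.Agent.K4H73.Secure

open Finset SimpleGraph

variable {V : Type*} (G : SimpleGraph V)

open Classical in
/-- the neighbours of `w` in `I` -/
noncomputable def K (I : Finset V) (w : V) : Finset V := I.filter fun u => G.Adj w u

/-- `w` is not defended by `I ∪ T` -/
structure U (I T : Finset V) (w : V) : Prop where
  notI : w ∉ I
  notT : w ∉ T
  nadj : ∀ t ∈ T, ¬ G.Adj w t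
  priv : ∀ u ∈ K G I w, ∃ y, y ∉ I ∧ y ∉ T ∧ y ≠ w ∧ K G I y = {u} ∧ (∀ t ∈ T, ¬ G.Adj y t) ∧
    ¬ G.Adj y w

variable {G}

theorem mem_K {I : Finset V} {w u : V} : u ∈ K G I w ↔ u ∈ I ∧ G.Adj w u := by
  simp [K]

theorem adj_of_K {I : Finset V} {y u : V} (h : K G I y = {u}) : G.Adj y u := by
  have : u ∈ K G I y := by rw [h]; simp
  exact (mem_K.1 this).2

theorem mem_of_K {I : Finset V} {y u : V} (h : K G I y = {u}) : u ∈ I := by
  have : u ∈ K G I y := by rw [h]; simp
  exact (mem_K.1 this).1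

theorem nadj_of_K {I : Finset V} {y u : V} (h : K G I y = {u}) {i : V} (hi : i ∈ I) (hne : i ≠ u) :
    ¬ G.Adj y i := by
  intro ha
  have : i ∈ K G I y := mem_K.2 ⟨hi, ha⟩
  rw [h, mem_singleton] at this
  exact hne this

theorem U.mono {I T T' : Finset V} (hT : T ⊆ T') {w : V} (h : U G I T' w) : U G I T w := by
  refine ⟨h.notI, fun hw => h.notT (hT hw), fun t ht => h.nadj t (hT ht), fun u hu => ?_⟩
  obtain ⟨y, h1, h2, h3, h4, h5, h6⟩ := h.priv u hu
  exact ⟨y, h1, fun hy => h2 (hT hy), h3, h4, fun t ht => h5 t (hT ht), h6⟩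

/-- `I` is a maximum independent set -/
structure MaxInd (G : SimpleGraph V) (I : Finset V) : Prop where
  ind : ∀ i ∈ I, ∀ j ∈ I, ¬ G.Adj i j
  max : ∀ J : Finset V, (∀ i ∈ J, ∀ j ∈ J, ¬ G.Adj i j) → J.card ≤ I.card

section

variable {I : Finset V} (hI : MaxInd G I)
include hI

theorem MaxInd.K_nonempty {w : V} (hw : w ∉ I) : (K G I w).Nonempty := by
  classical
  by_contra h
  rw [not_nonempty_iff_eq_empty] at h
  have h1 : ∀ i ∈ I, ¬ G.Adj w i := by
    intro i hi ha
    have : i ∈ K G I w := mem_K.2 ⟨hi, ha⟩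
    rw [h] at this
    simp at this
  have h2 := hI.max (insert w I) (by
    intro i hi j hj
    rw [mem_insert] at hi hj
    rcases hi with rfl | hi <;> rcases hj with rfl | hj
    · exact G.irrefl
    · exact h1 j hj
    · exact fun h => h1 i hi h.symm
    · exact hI.ind i hi j hj)
  rw [card_insert_of_notMem hw] at h2
  omega

theorem MaxInd.clique {y y' u : V} (hy : y ∉ I) (hy' : y' ∉ I) (h : K G I y = {u})
    (h' : K G I y' = {u}) (hne : y ≠ y') : G.Adj y y' := by
  classical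
  by_contra hna
  have hu := mem_of_K h
  have hna' : ¬ G.Adj y' y := fun h => hna h.symm
  have h2 := hI.max (insert y (insert y' (I.erase u))) (by
    have e1 : ∀ j ∈ I.erase u, ¬ G.Adj y j := fun j hj =>
      nadj_of_K h (mem_of_mem_erase hj) (ne_of_mem_erase hj)
    have e2 : ∀ j ∈ I.erase u, ¬ G.Adj y' j := fun j hj =>
      nadj_of_K h' (mem_of_mem_erase hj) (ne_of_mem_erase hj)
    intro i hi j hj
    rw [mem_insert, mem_insert] at hi hj
    rcases hi with rfl | rfl | hi <;> rcases hj with rfl | rfl | hj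
    · exact G.irrefl
    · exact hna
    · exact e1 j hj
    · exact hna'
    · exact G.irrefl
    · exact e2 j hj
    · exact fun h => e1 i hi h.symm
    · exact fun h => e2 i hi h.symm
    · exact hI.ind i (mem_of_mem_erase hi) j (mem_of_mem_erase hj))
  rw [card_insert_of_notMem, card_insert_of_notMem, card_erase_of_mem hu] at h2
  · have := card_pos.2 ⟨u, hu⟩
    omega
  · exact fun h => hy' (mem_of_mem_erase h)
  · rw [mem_insert]
    rintro (h | h)
    · exact hne h
    · exact hy (mem_of_mem_erase h)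

theorem MaxInd.two_le {T : Finset V} {w : V} (h : U G I T w) : 2 ≤ (K G I w).card := by
  have h1 := card_pos.2 (hI.K_nonempty h.notI)
  by_contra h2
  have h3 : (K G I w).card = 1 := by omega
  obtain ⟨u, hu⟩ := card_eq_one.1 h3
  obtain ⟨y, e1, -, e3, e4, -, e6⟩ := h.priv u (by rw [hu]; simp)
  exact e6 (hI.clique e1 h.notI e4 hu e3)

theorem MaxInd.secure {T : Finset V} [DecidableEq V] (hT : ∀ t ∈ T, t ∉ I)
    (h : ∀ w, ¬ U G I T w) : IsSecureDominating G ((I ∪ T : Finset V) : Set V) := by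
  have hdom : IsDominating G (I : Set V) := by
    intro v hv
    obtain ⟨u, hu⟩ := hI.K_nonempty hv
    exact ⟨u, (mem_K.1 hu).1, (mem_K.1 hu).2⟩
  refine ⟨hdom.mono (by simp), fun v hv => ?_⟩
  rw [coe_union, Set.mem_union, mem_coe, mem_coe, not_or] at hv
  obtain ⟨hvI, hvT⟩ := hv
  by_cases hadj : ∃ t ∈ T, G.Adj v t
  · obtain ⟨t, ht, ha⟩ := hadj
    refine ⟨t, by simp [ht], ha, hdom.mono ?_⟩
    intro x hx
    refine Or.inl ⟨by simp [mem_coe.1 hx], ?_⟩
    rintro rfl
    exact hT _ ht hx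
  · push Not at hadj
    have h1 := h v
    have h2 : ∃ u ∈ K G I v, ∀ y, ¬ (y ∉ I ∧ y ∉ T ∧ y ≠ v ∧ K G I y = {u} ∧
        (∀ t ∈ T, ¬ G.Adj y t) ∧ ¬ G.Adj y v) := by
      by_contra hcon
      push Not at hcon
      exact h1 ⟨hvI, hvT, hadj, hcon⟩
    obtain ⟨u, hu, hy⟩ := h2
    have huI := (mem_K.1 hu).1
    refine ⟨u, by simp [huI], (mem_K.1 hu).2, ?_⟩
    intro z hz
    have hz1 : z ≠ v := fun e => hz (Or.inr e)
    by_cases hzu : z = u
    · subst hzu
      exact ⟨v, Or.inr rfl, (mem_K.1 hu).2.symm⟩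
    have hzI : z ∉ I := fun e => hz (Or.inl ⟨by simp [e], hzu⟩)
    have hzT : z ∉ T := fun e => hz (Or.inl ⟨by simp [e], hzu⟩)
    by_cases hz2 : ∃ u' ∈ K G I z, u' ≠ u
    · obtain ⟨u', hu', hne⟩ := hz2
      exact ⟨u', Or.inl ⟨by simp [(mem_K.1 hu').1], hne⟩, (mem_K.1 hu').2⟩
    push Not at hz2
    have hKz : K G I z = {u} := by
      obtain ⟨x, hx⟩ := hI.K_nonempty hzI
      have := hz2 x hx
      subst this
      exact eq_singleton_iff_unique_mem.2 ⟨hx, hz2⟩
    by_cases hz3 : ∃ t ∈ T, G.Adj z t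
    · obtain ⟨t, ht, ha⟩ := hz3
      refine ⟨t, Or.inl ⟨by simp [ht], ?_⟩, ha⟩
      rintro rfl
      exact hT _ ht huI
    push Not at hz3
    by_contra hcon
    apply hy z
    refine ⟨hzI, hzT, hz1, hKz, hz3, fun ha => hcon ⟨v, Or.inr rfl, ha⟩⟩

end

/-- Two undefended vertices one after the other: their neighbourhoods in `I` are disjoint or
nested. -/
theorem nested (hP : ¬ (pathGraph 6) ⊴ G) {I : Finset V} (hI : MaxInd G I) [DecidableEq V]
    {T : Finset V} {w₁ w₂ : V} (h1 : U G I T w₁) (h2 : U G I (insert w₁ T) w₂)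
    (hc : (K G I w₁).card ≤ (K G I w₂).card) {u : V} (hu1 : u ∈ K G I w₁) (hu2 : u ∈ K G I w₂) :
    K G I w₁ ⊆ K G I w₂ := by
  by_contra hns
  obtain ⟨a, ha1, ha2⟩ := not_subset.1 hns
  have hns2 : ¬ K G I w₂ ⊆ K G I w₁ := by
    intro hs
    exact hns (eq_of_subset_of_card_le hs hc).ge
  obtain ⟨b, hb2, hb1⟩ := not_subset.1 hns2
  obtain ⟨y, y1, y2, y3, y4, y5, y6⟩ := h2.priv b hb2
  have haI := (mem_K.1 ha1).1
  have hbI := (mem_K.1 hb2).1
  have huI := (mem_K.1 hu1).1
  have hab : a ≠ b := fun e => hb1 (e ▸ ha1)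
  have hub : u ≠ b := fun e => hb1 (e ▸ hu1)
  have hw12 : ¬ G.Adj w₂ w₁ := h2.nadj w₁ (mem_insert_self _ _)
  refine no_P6 hP (a := a) (b := w₁) (c := u) (d := w₂) (e := b) (f := y) (mem_K.1 ha1).2.symm
    (mem_K.1 hu1).2 (mem_K.1 hu2).2.symm (mem_K.1 hb2).2 (adj_of_K y4).symm
    (hI.ind a haI u huI) (fun h => ha2 (mem_K.2 ⟨haI, h.symm⟩)) (hI.ind a haI b hbI)
    (fun h => nadj_of_K y4 haI hab h.symm) (fun h => hw12 h.symm)
    (fun h => hb1 (mem_K.2 ⟨hbI, h⟩)) (fun h => y5 w₁ (mem_insert_self _ _) h.symm)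
    (hI.ind u huI b hbI) (fun h => nadj_of_K y4 huI hub h.symm) (fun h => y6 h.symm)

/-- If `w₁` has exactly two neighbours in `I` then they are not neighbours of vertices which are
undefended after `w₁` has been added to `T`. -/
theorem pair_case (hP : ¬ (pathGraph 6) ⊴ G) {I : Finset V} (hI : MaxInd G I) [DecidableEq V]
    {T : Finset V} {w₁ w₂ : V} (h1 : U G I T w₁) (h2 : U G I (insert w₁ T) w₂)
    (hc1 : (K G I w₁).card = 2) (hsub : K G I w₁ ⊆ K G I w₂) : False := by
  classical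
  have hw12 : ¬ G.Adj w₂ w₁ := h2.nadj w₁ (mem_insert_self _ _)
  have hne : w₂ ≠ w₁ := fun e => h2.notT (e ▸ mem_insert_self _ _)
  obtain ⟨c₁, c₂, hcc, hK⟩ := card_eq_two.1 hc1
  have hc₁ : c₁ ∈ K G I w₁ := by rw [hK]; simp
  have hc₂ : c₂ ∈ K G I w₁ := by rw [hK]; simp
  -- private neighbours
  choose! y y1 y2 y3 y4 y5 y6 using h2.priv
  have y5' : ∀ b ∈ K G I w₂, ¬ G.Adj (y b) w₁ := fun b hb => y5 b hb w₁ (mem_insert_self _ _)
  have hyinj : ∀ b ∈ K G I w₂, ∀ c ∈ K G I w₂, y b = y c → b = c := by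
    intro b hb c hc e
    have e1 := y4 b hb
    rw [e, y4 c hc] at e1
    exact (singleton_injective e1).symm
  -- isolated private neighbours
  have key : ∀ b ∈ K G I w₂, b ∉ K G I w₁ → ∀ c ∈ K G I w₂, c ≠ b → ¬ G.Adj (y c) (y b) := by
    intro b hb hb1 c hc hcb hadj
    obtain ⟨u, hu, huc⟩ : ∃ u ∈ K G I w₁, u ≠ c := by
      by_cases h : c₁ = c
      · exact ⟨c₂, hc₂, fun e => hcc (h.trans e.symm)⟩
      · exact ⟨c₁, hc₁, h⟩
    have hu2 := hsub hu
    have hbI := (mem_K.1 hb).1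
    have huI := (mem_K.1 hu).1
    have hub : u ≠ b := fun e => hb1 (e ▸ hu)
    exact no_P6 hP (a := y c) (b := y b) (c := b) (d := w₂) (e := u) (f := w₁) hadj
      (adj_of_K (y4 b hb)) (mem_K.1 hb).2.symm (mem_K.1 hu2).2 (mem_K.1 hu).2.symm
      (nadj_of_K (y4 c hc) hbI hcb.symm) (y6 c hc) (nadj_of_K (y4 c hc) huI huc)
      (y5' c hc) (y6 b hb) (nadj_of_K (y4 b hb) huI hub) (y5' b hb)
      (hI.ind b hbI u huI) (fun h => hb1 (mem_K.2 ⟨hbI, h.symm⟩)) hw12
  -- the larger independent set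
  set J := insert c₁ (K G I w₂ \ K G I w₁) with hJ
  have hJsub : J ⊆ K G I w₂ := by
    intro x hx
    rw [hJ, mem_insert, mem_sdiff] at hx
    rcases hx with rfl | hx
    · exact hsub hc₁
    · exact hx.1
  have hJcard : J.card = (K G I w₂).card - 1 := by
    rw [hJ, card_insert_of_notMem (by simp [hc₁]), card_sdiff_of_subset hsub, hc1]
    have := card_le_card hsub
    omega
  have hYJ : ∀ b ∈ J, ∀ c ∈ J, ¬ G.Adj (y b) (y c) := by
    intro b hb c hc
    by_cases hbc : b = c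
    · subst hbc; exact G.irrefl
    rw [hJ, mem_insert, mem_sdiff] at hb hc
    rcases hb with rfl | hb
    · rcases hc with rfl | hc
      · exact absurd rfl hbc
      · exact key c hc.1 hc.2 b (hsub hc₁) hbc
    · exact fun h => key b hb.1 hb.2 c (hJsub (by rw [hJ, mem_insert, mem_sdiff]; exact hc))
        (Ne.symm hbc) h.symm
  have hmax := hI.max ((I \ K G I w₂) ∪ (insert w₁ (insert w₂ (J.image y)))) (by
    have a1 : ∀ i ∈ I \ K G I w₂, ¬ G.Adj w₂ i := fun i hi h =>
      (mem_sdiff.1 hi).2 (mem_K.2 ⟨(mem_sdiff.1 hi).1, h⟩)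
    have a2 : ∀ i ∈ I \ K G I w₂, ¬ G.Adj w₁ i := fun i hi h =>
      (mem_sdiff.1 hi).2 (hsub (mem_K.2 ⟨(mem_sdiff.1 hi).1, h⟩))
    have a3 : ∀ i ∈ I \ K G I w₂, ∀ b ∈ J, ¬ G.Adj (y b) i := fun i hi b hb =>
      nadj_of_K (y4 b (hJsub hb)) (mem_sdiff.1 hi).1
        (fun e => (mem_sdiff.1 hi).2 (e ▸ hJsub hb))
    intro i hi j hj
    rw [mem_union, mem_insert, mem_insert, mem_image] at hi hj
    rcases hi with hi | rfl | rfl | ⟨b, hb, rfl⟩ <;> rcases hj with hj | rfl | rfl | ⟨c, hc, rfl⟩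
    · exact hI.ind i (mem_sdiff.1 hi).1 j (mem_sdiff.1 hj).1
    · exact fun h => a2 i hi h.symm
    · exact fun h => a1 i hi h.symm
    · exact fun h => a3 i hi c hc h.symm
    · exact a2 j hj
    · exact G.irrefl
    · exact fun h => hw12 h.symm
    · exact fun h => y5' c (hJsub hc) h.symm
    · exact a1 j hj
    · exact hw12
    · exact G.irrefl
    · exact fun h => y6 c (hJsub hc) h.symm
    · exact a3 j hj b hb
    · exact y5' b (hJsub hb)
    · exact y6 b (hJsub hb)
    · exact hYJ b hb c hc)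
  have hKI : K G I w₂ ⊆ I := fun x hx => (mem_K.1 hx).1
  rw [card_union_of_disjoint, card_insert_of_notMem, card_insert_of_notMem, card_image_of_injOn,
    hJcard, card_sdiff_of_subset hKI] at hmax
  · have h3 : (K G I w₂).card ≤ I.card := card_le_card hKI
    have h4 : 2 ≤ (K G I w₂).card := hc1 ▸ card_le_card hsub
    omega
  · intro b hb c hc e
    exact hyinj b (hJsub hb) c (hJsub hc) e
  · rw [mem_image]
    rintro ⟨b, hb, e⟩
    exact y3 b (hJsub hb) e
  · rw [mem_insert, mem_image]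
    rintro (e | ⟨b, hb, e⟩)
    · exact hne e.symm
    · exact y2 b (hJsub hb) (e ▸ mem_insert_self _ _)
  · rw [Finset.disjoint_left]
    intro x hx hx'
    rw [mem_insert, mem_insert, mem_image] at hx'
    have hxI := (mem_sdiff.1 hx).1
    rcases hx' with rfl | rfl | ⟨b, hb, rfl⟩
    · exact h1.notI hxI
    · exact h2.notI hxI
    · exact y1 b (hJsub hb) hxI

end Pool.Agent.K4H73.Secure
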