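import Pool.Agent.K4H73.Secure.PSix

/-!
# Secure domination in graphs without induced `P₆`: the upper bound
-/

set_option autoImplicit false

namespace Pool.Agent.K4H73.Secure

open Finset SimpleGraph

variable {V : Type*} {G : SimpleGraph V}

/-- One step of the construction. -/
theorem step (hP : ¬ (pathGraph 6) ⊴ G) {I : Finset V} (hI : MaxInd G I) [DecidableEq V]
    {T : Finset V} (hT : ∀ t ∈ T, t ∉ I) {w₁ : V} (h1 : U G I T w₁)
    (hmin : ∀ w, U G I T w → (K G I w₁).card ≤ (K G I w).card) :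
    ∃ T' A : Finset V, T ⊆ T' ∧ (∀ t ∈ T', t ∉ I) ∧ A.Nonempty ∧
      2 * T'.card ≤ 2 * T.card + A.card ∧ (∀ a ∈ A, ∃ w, U G I T w ∧ a ∈ K G I w) ∧
      ∀ w, U G I T' w → ∀ a ∈ A, a ∉ K G I w := by
  have hsub1 : T ⊆ insert w₁ T := subset_insert _ _
  by_cases hc2 : (K G I w₁).card = 2
  · refine ⟨insert w₁ T, K G I w₁, hsub1, ?_, hI.K_nonempty h1.notI, ?_, fun a ha => ⟨w₁, h1, ha⟩,
      ?_⟩
    · intro t ht
      rw [mem_insert] at ht
      rcases ht with rfl | ht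
      · exact h1.notI
      · exact hT t ht
    · have := card_insert_le w₁ T
      omega
    · intro w hw a ha ha'
      exact pair_case hP hI h1 hw hc2 (nested hP hI h1 hw (hmin w (hw.mono hsub1)) ha ha')
  have hc3 : 3 ≤ (K G I w₁).card := by
    have := hI.two_le h1
    omega
  obtain ⟨p, hp⟩ := hI.K_nonempty h1.notI
  obtain ⟨y₁, q1, q2, q3, q4, q5, q6⟩ := h1.priv p hp
  have hpI := (mem_K.1 hp).1
  set T₁ := insert y₁ (insert w₁ T) with hT₁
  have hT₁I : ∀ t ∈ T₁, t ∉ I := by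
    intro t ht
    rw [hT₁, mem_insert, mem_insert] at ht
    rcases ht with rfl | rfl | ht
    · exact q1
    · exact h1.notI
    · exact hT t ht
  have hwT₁ : insert w₁ T ⊆ T₁ := subset_insert _ _
  have hTT₁ : T ⊆ T₁ := hsub1.trans hwT₁
  have hcT₁ : T₁.card ≤ T.card + 2 := by
    have e1 := card_insert_le y₁ (insert w₁ T)
    have e2 := card_insert_le w₁ T
    rw [← hT₁] at e1
    omega
  -- a vertex undefended by a set containing `y₁` is not adjacent to `p`
  have hpw : ∀ T' : Finset V, y₁ ∈ T' → ∀ w, U G I T' w → p ∉ K G I w := by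
    intro T' hy w hw hpw
    obtain ⟨z, z1, z2, z3, z4, z5, z6⟩ := hw.priv p hpw
    exact z5 y₁ hy (hI.clique z1 q1 z4 q4 (fun e => z2 (e ▸ hy)))
  have hy₁T₁ : y₁ ∈ T₁ := mem_insert_self _ _
  have hw₁T₁ : w₁ ∈ T₁ := hwT₁ (mem_insert_self _ _)
  have L1 : ∀ w, U G I T₁ w → ∀ a ∈ K G I w₁, a ∉ K G I w := by
    intro w hw a ha ha'
    exact hpw T₁ hy₁T₁ w hw (nested hP hI h1 (hw.mono hwT₁) (hmin w (hw.mono hTT₁)) ha ha' hp)
  by_cases hc4 : 4 ≤ (K G I w₁).card
  · exact ⟨T₁, K G I w₁, hTT₁, hT₁I, ⟨p, hp⟩, by omega, fun a ha => ⟨w₁, h1, ha⟩, L1⟩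
  have hc : (K G I w₁).card = 3 := by omega
  by_cases hi : ∀ w, U G I (insert y₁ T) w → ∀ a ∈ K G I w₁, a ∉ K G I w
  · refine ⟨insert y₁ T, K G I w₁, subset_insert _ _, ?_, ⟨p, hp⟩, ?_, fun a ha => ⟨w₁, h1, ha⟩,
      hi⟩
    · intro t ht
      rw [mem_insert] at ht
      rcases ht with rfl | ht
      · exact q1
      · exact hT t ht
    · have := card_insert_le y₁ T
      omega
  push Not at hi
  obtain ⟨w', hw', u, hu1, hu'⟩ := hi
  have hpw' := hpw _ (mem_insert_self _ _) w' hw'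
  have hw'T : U G I T w' := hw'.mono (subset_insert _ _)
  have hcw' := hmin w' hw'T
  obtain ⟨b, hb', hb1⟩ : ∃ b ∈ K G I w', b ∉ K G I w₁ := by
    by_contra hcon
    push Not at hcon
    have : K G I w' = K G I w₁ := eq_of_subset_of_card_le hcon hcw'
    exact hpw' (this ▸ hp)
  have huI := (mem_K.1 hu1).1
  have hbI := (mem_K.1 hb').1
  have hup : u ≠ p := fun e => hpw' (e ▸ hu')
  have hbp : b ≠ p := fun e => hpw' (e ▸ hb')
  have hy₁w' : ¬ G.Adj y₁ w' := fun h => hw'.nadj y₁ (mem_insert_self _ _) h.symm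
  have hpw'2 : ¬ G.Adj p w' := fun h => hpw' (mem_K.2 ⟨hpI, h.symm⟩)
  have hadj : G.Adj w₁ w' := by
    by_contra hna
    exact no_P6 hP (a := y₁) (b := p) (c := w₁) (d := u) (e := w') (f := b) (adj_of_K q4)
      (mem_K.1 hp).2.symm (mem_K.1 hu1).2 (mem_K.1 hu').2.symm (mem_K.1 hb').2 q6
      (nadj_of_K q4 huI hup) hy₁w' (nadj_of_K q4 hbI hbp) (hI.ind p hpI u huI) hpw'2
      (hI.ind p hpI b hbI) hna (fun h => hb1 (mem_K.2 ⟨hbI, h⟩)) (hI.ind u huI b hbI)
  have hpw₃ : ∀ w, U G I T₁ w → ¬ G.Adj p w := fun w hw h =>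
    L1 w hw p hp (mem_K.2 ⟨hpI, h.symm⟩)
  have hy₁w₃ : ∀ w, U G I T₁ w → ¬ G.Adj y₁ w := fun w hw h => hw.nadj y₁ hy₁T₁ h.symm
  have hw₁w₃ : ∀ w, U G I T₁ w → ¬ G.Adj w₁ w := fun w hw h => hw.nadj w₁ hw₁T₁ h.symm
  have C4 : ∀ w, U G I T₁ w → ∀ c ∈ K G I w', c ∈ K G I w → G.Adj w' w := by
    intro w hw c hc' hcw
    by_contra hna
    have hcI := (mem_K.1 hcw).1
    have hcp : c ≠ p := fun e => hpw' (e ▸ hc')
    exact no_P6 hP (a := y₁) (b := p) (c := w₁) (d := w') (e := c) (f := w) (adj_of_K q4)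
      (mem_K.1 hp).2.symm hadj (mem_K.1 hc').2 (mem_K.1 hcw).2.symm q6 hy₁w'
      (nadj_of_K q4 hcI hcp) (hy₁w₃ w hw) hpw'2 (hI.ind p hpI c hcI) (hpw₃ w hw)
      (fun h => L1 w hw c (mem_K.2 ⟨hcI, h⟩) hcw) (hw₁w₃ w hw) hna
  have C5 : ∀ w, U G I T₁ w → ∀ c ∈ K G I w', c ∈ K G I w → K G I w ⊆ K G I w' := by
    intro w hw c hc' hcw d hdw
    by_contra hd'
    have hdI := (mem_K.1 hdw).1
    have hdp : d ≠ p := fun e => L1 w hw p hp (e ▸ hdw)
    exact no_P6 hP (a := y₁) (b := p) (c := w₁) (d := w') (e := w) (f := d) (adj_of_K q4)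
      (mem_K.1 hp).2.symm hadj (C4 w hw c hc' hcw) (mem_K.1 hdw).2 q6 hy₁w' (hy₁w₃ w hw)
      (nadj_of_K q4 hdI hdp) hpw'2 (hpw₃ w hw) (hI.ind p hpI d hdI)
      (hw₁w₃ w hw) (fun h => L1 w hw d (mem_K.2 ⟨hdI, h⟩) hdw)
      (fun h => hd' (mem_K.2 ⟨hdI, h⟩))
  have hA : ∀ a ∈ K G I w₁ ∪ K G I w', ∃ w, U G I T w ∧ a ∈ K G I w := by
    intro a ha
    rw [mem_union] at ha
    rcases ha with ha | ha
    · exact ⟨w₁, h1, ha⟩
    · exact ⟨w', hw'T, ha⟩
  by_cases hii : ∀ w, U G I T₁ w → ∀ c ∈ K G I w', c ∉ K G I w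
  · refine ⟨T₁, K G I w₁ ∪ K G I w', hTT₁, hT₁I, ⟨p, mem_union_left _ hp⟩, ?_, hA, ?_⟩
    · have e1 : insert b (K G I w₁) ⊆ K G I w₁ ∪ K G I w' := by
        intro x hx
        rw [mem_insert] at hx
        rcases hx with rfl | hx
        · exact mem_union_right _ hb'
        · exact mem_union_left _ hx
      have e2 := card_le_card e1
      rw [card_insert_of_notMem hb1] at e2
      omega
    · intro w hw a ha
      rw [mem_union] at ha
      rcases ha with ha | ha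
      · exact L1 w hw a ha
      · exact hii w hw a ha
  push Not at hii
  obtain ⟨w₃, hw₃, c, hc', hcw₃⟩ := hii
  refine ⟨insert w' T₁, K G I w₁ ∪ K G I w', hTT₁.trans (subset_insert _ _), ?_,
    ⟨p, mem_union_left _ hp⟩, ?_, hA, ?_⟩
  · intro t ht
    rw [mem_insert] at ht
    rcases ht with rfl | ht
    · exact hw'T.notI
    · exact hT₁I t ht
  · have e1 : K G I w₁ ∪ K G I w₃ ⊆ K G I w₁ ∪ K G I w' :=
      union_subset_union_right (C5 w₃ hw₃ c hc' hcw₃)
    have e2 := card_le_card e1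
    rw [card_union_of_disjoint] at e2
    · have e3 := hmin w₃ (hw₃.mono hTT₁)
      have e4 := card_insert_le w' T₁
      omega
    · rw [Finset.disjoint_left]
      exact L1 w₃ hw₃
  · intro w hw a ha
    have hw2 : U G I T₁ w := hw.mono (subset_insert _ _)
    rw [mem_union] at ha
    rcases ha with ha | ha
    · exact L1 w hw2 a ha
    · intro haw
      exact hw.nadj w' (mem_insert_self _ _) (C4 w hw2 a ha haw).symm

theorem exists_T (hP : ¬ (pathGraph 6) ⊴ G) {I : Finset V} (hI : MaxInd G I) [DecidableEq V] :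
    ∃ T : Finset V, (∀ t ∈ T, t ∉ I) ∧ 2 * T.card ≤ I.card ∧ ∀ w, ¬ U G I T w := by
  have main : ∀ n : ℕ, ∀ T R : Finset V, (I \ R).card = n → R ⊆ I → 2 * T.card ≤ R.card →
      (∀ t ∈ T, t ∉ I) → (∀ w, U G I T w → ∀ a ∈ R, a ∉ K G I w) →
      ∃ T : Finset V, (∀ t ∈ T, t ∉ I) ∧ 2 * T.card ≤ I.card ∧ ∀ w, ¬ U G I T w := by
    intro n
    induction n using Nat.strong_induction_on with
    | _ n ih =>
      intro T R hn hR hTR hT hU
      by_cases hex : ∃ w, U G I T w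
      · obtain ⟨w₀, hw₀⟩ := hex
        obtain ⟨w₁, hw₁, hmin⟩ : ∃ w₁, U G I T w₁ ∧
            ∀ w, U G I T w → (K G I w₁).card ≤ (K G I w).card := by
          let S : Set ℕ := {m | ∃ w, U G I T w ∧ (K G I w).card = m}
          have hS : S.Nonempty := ⟨_, w₀, hw₀, rfl⟩
          obtain ⟨w₁, h1, h2⟩ := Nat.sInf_mem hS
          exact ⟨w₁, h1, fun w hw => h2 ▸ Nat.sInf_le ⟨w, hw, rfl⟩⟩
        obtain ⟨T', A, hTT', hT', hAne, hcard, hA, hUA⟩ := step hP hI hT hw₁ hmin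
        have hAI : A ⊆ I := by
          intro a ha
          obtain ⟨w, -, haw⟩ := hA a ha
          exact (mem_K.1 haw).1
        have hRA : Disjoint R A := by
          rw [Finset.disjoint_left]
          intro a haR haA
          obtain ⟨w, hw, haw⟩ := hA a haA
          exact hU w hw a haR haw
        have hRAI : R ∪ A ⊆ I := union_subset hR hAI
        have hcRA := card_union_of_disjoint hRA
        have hApos := card_pos.2 hAne
        have h1 := card_sdiff_of_subset hR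
        have h2 := card_sdiff_of_subset hRAI
        have h3 := card_le_card hRAI
        refine ih (I \ (R ∪ A)).card (by omega) T' (R ∪ A) rfl hRAI (by omega) hT' ?_
        intro w hw a ha
        rw [mem_union] at ha
        rcases ha with ha | ha
        · exact hU w (hw.mono hTT') a ha
        · exact hUA w hw a ha
      · push Not at hex
        exact ⟨T, hT, hTR.trans (card_le_card hR), hex⟩
  exact main _ ∅ ∅ rfl (empty_subset _) (by simp) (by simp) (by simp)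

/-- In a finite graph without induced `P₆`, `γ_s ≤ 3 α / 2`. -/
theorem secure_le_of_P6_free [Finite V] (hP : ¬ (pathGraph 6) ⊴ G) :
    2 * secureDominationNumber G ≤ 3 * G.indepNum := by
  classical
  have := Fintype.ofFinite V
  obtain ⟨I, hI⟩ := G.exists_isNIndepSet_indepNum
  have hM : MaxInd G I := by
    refine ⟨fun i hi j hj h => ?_, fun J hJ => ?_⟩
    · exact hI.isIndepSet hi hj h.ne h
    · rw [hI.card_eq]
      exact IsIndepSet.card_le_indepNum (fun i hi j hj _ => hJ i hi j hj)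
  obtain ⟨T, hT, hc, hU⟩ := exists_T hP hM
  have h1 := secureDominationNumber_le _ (hM.secure hT hU)
  have h2 := card_union_le I T
  have h3 := hI.card_eq
  omega

end Pool.Agent.K4H73.Secure
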